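import Mathlib

/-!
# A semantically acyclic C2RPQ that is not equivalent to a single acyclic C2RPQ

The query is `Q(x, y, z) = (x, ε + a, y) ∧ (y, ε + b, z) ∧ (x, ab + c, z)`. Choosing one alternative in
each of the first two atoms gives four acyclic queries. Suppose that an acyclic C2RPQ `T` is
equivalent to `Q`. Then `T` maps into the database with the edges `p -b→ r`, `p -c→ r` with answer
`(p, p, r)` and into the database with the edges `s -a→ t`, `s -c→ t` with answer `(s, t, t)`. The two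
maps can be glued at an edge of the path between the variables `x` and `y` of `T`; this gives an
answer of `T` in a database that is not an answer of `Q`.
-/

set_option autoImplicit false

namespace Pool.Agent.Results.MP_968ae6_lc.NoSingleAcyclic

/-- A graph database over the alphabet `A`. -/
structure GraphDB (A : Type) where
  V : Type
  finite : Finite V
  E : V → A → V → Prop

/-- `SemiPath G w u v`: there is a semipath from `u` to `v` with label `w`. The letter `inl a` is `a`,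
the letter `inr a` is the inverse letter `a⁻`. -/
def SemiPath {A : Type} (G : GraphDB A) : List (A ⊕ A) → G.V → G.V → Prop
  | [], u, v => u = v
  | Sum.inl a :: w, u, v => ∃ t, G.E u a t ∧ SemiPath G w t v
  | Sum.inr a :: w, u, v => ∃ t, G.E t a u ∧ SemiPath G w t v

/-- The pairs of nodes in the answer of the 2RPQ `R`. -/
def Joined {A : Type} (R : RegularExpression (A ⊕ A)) (G : GraphDB A) (u v : G.V) : Prop :=
  ∃ w ∈ R.matches', SemiPath G w u v

/-- A C2RPQ with a tuple of `k` free variables: a finite set of variables and a finite list of atoms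
`(u, R, v)`. -/
structure C2RPQ (A : Type) (k : ℕ) where
  Var : Type
  finite : Finite Var
  free : Fin k → Var
  atoms : List (Var × RegularExpression (A ⊕ A) × Var)

/-- The set of answers of a C2RPQ. -/
def C2RPQ.eval {A : Type} {k : ℕ} (Q : C2RPQ A k) (G : GraphDB A) : Set (Fin k → G.V) :=
  {a | ∃ h : Q.Var → G.V, (∀ i, h (Q.free i) = a i) ∧
    ∀ t ∈ Q.atoms, Joined t.2.1 G (h t.1) (h t.2.2)}

/-- The undirected graph on the variables: two different variables are joined by an edge if they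
occur together in an atom. -/
def C2RPQ.graph {A : Type} {k : ℕ} (Q : C2RPQ A k) : SimpleGraph Q.Var :=
  SimpleGraph.fromRel fun u v => ∃ R, (u, R, v) ∈ Q.atoms

/-- A C2RPQ is acyclic if its graph is a forest. -/
def C2RPQ.IsAcyclic {A : Type} {k : ℕ} (Q : C2RPQ A k) : Prop := Q.graph.IsAcyclic

/-- Equivalence of two C2RPQs. -/
def Equivalent {A : Type} {k : ℕ} (Q T : C2RPQ A k) : Prop := ∀ G : GraphDB A, Q.eval G = T.eval G

/-- A C2RPQ is semantically acyclic if it is equivalent to a finite disjunction of acyclic C2RPQs. -/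
def SemanticallyAcyclic {A : Type} {k : ℕ} (Q : C2RPQ A k) : Prop :=
  ∃ U : List (C2RPQ A k), (∀ T ∈ U, T.IsAcyclic) ∧
    ∀ G : GraphDB A, Q.eval G = {a | ∃ T ∈ U, a ∈ T.eval G}

/-! ### General facts -/

theorem SemiPath.map {A : Type} {G G' : GraphDB A} (φ : G.V → G'.V)
    (hφ : ∀ u a v, G.E u a v → G'.E (φ u) a (φ v)) : ∀ (w : List (A ⊕ A)) (u v : G.V),
    SemiPath G w u v → SemiPath G' w (φ u) (φ v)
  | [], _, _, h => congrArg φ h
  | Sum.inl _ :: w, _, _, ⟨t, h1, h2⟩ => ⟨φ t, hφ _ _ _ h1, SemiPath.map φ hφ w _ _ h2⟩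
  | Sum.inr _ :: w, _, _, ⟨t, h1, h2⟩ => ⟨φ t, hφ _ _ _ h1, SemiPath.map φ hφ w _ _ h2⟩

theorem Joined.map {A : Type} {G G' : GraphDB A} {R : RegularExpression (A ⊕ A)} {u v : G.V}
    (h : Joined R G u v) (φ : G.V → G'.V) (hφ : ∀ u a v, G.E u a v → G'.E (φ u) a (φ v)) :
    Joined R G' (φ u) (φ v) := by
  obtain ⟨w, hw, h⟩ := h
  exact ⟨w, hw, SemiPath.map φ hφ w u v h⟩

section Joined

variable {A : Type} {G : GraphDB A} {u v : G.V}

theorem joined_one : Joined 1 G u v ↔ u = v := by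
  unfold Joined
  rw [RegularExpression.matches'_epsilon]
  constructor
  · rintro ⟨w, hw, h⟩
    rw [Language.mem_one] at hw
    rw [hw] at h
    exact h
  · intro h
    exact ⟨[], Language.nil_mem_one, h⟩

theorem joined_char (a : A) : Joined (RegularExpression.char (Sum.inl a)) G u v ↔ G.E u a v := by
  unfold Joined
  rw [RegularExpression.matches'_char]
  constructor
  · rintro ⟨w, hw, h⟩
    have hw' : w = [Sum.inl a] := hw
    rw [hw'] at h
    obtain ⟨t, h1, h2⟩ := h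
    have h3 : t = v := h2
    rwa [← h3]
  · intro h
    exact ⟨[Sum.inl a], rfl, v, h, rfl⟩

theorem joined_add (R S : RegularExpression (A ⊕ A)) :
    Joined (R + S) G u v ↔ Joined R G u v ∨ Joined S G u v := by
  unfold Joined
  rw [RegularExpression.matches'_add]
  constructor
  · rintro ⟨w, hw, h⟩
    rcases (Language.mem_add _ _ _).mp hw with hw | hw
    · exact Or.inl ⟨w, hw, h⟩
    · exact Or.inr ⟨w, hw, h⟩
  · rintro (⟨w, hw, h⟩ | ⟨w, hw, h⟩)
    · exact ⟨w, (Language.mem_add _ _ _).mpr (Or.inl hw), h⟩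
    · exact ⟨w, (Language.mem_add _ _ _).mpr (Or.inr hw), h⟩

theorem semiPath_append : ∀ (w w' : List (A ⊕ A)) (u v : G.V),
    SemiPath G (w ++ w') u v ↔ ∃ t, SemiPath G w u t ∧ SemiPath G w' t v
  | [], w', u, v => by simp [SemiPath]
  | Sum.inl a :: w, w', u, v => by
    simp only [List.cons_append, SemiPath, semiPath_append w w']
    constructor
    · rintro ⟨t, h1, t', h2, h3⟩
      exact ⟨t', ⟨t, h1, h2⟩, h3⟩
    · rintro ⟨t', ⟨t, h1, h2⟩, h3⟩
      exact ⟨t, h1, t', h2, h3⟩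
  | Sum.inr a :: w, w', u, v => by
    simp only [List.cons_append, SemiPath, semiPath_append w w']
    constructor
    · rintro ⟨t, h1, t', h2, h3⟩
      exact ⟨t', ⟨t, h1, h2⟩, h3⟩
    · rintro ⟨t', ⟨t, h1, h2⟩, h3⟩
      exact ⟨t, h1, t', h2, h3⟩

theorem joined_mul (R S : RegularExpression (A ⊕ A)) :
    Joined (R * S) G u v ↔ ∃ t, Joined R G u t ∧ Joined S G t v := by
  unfold Joined
  rw [RegularExpression.matches'_mul]
  constructor
  · rintro ⟨w, hw, h⟩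
    obtain ⟨w1, h1, w2, h2, rfl⟩ := Language.mem_mul.mp hw
    obtain ⟨t, h3, h4⟩ := (semiPath_append w1 w2 u v).mp h
    exact ⟨t, ⟨w1, h1, h3⟩, ⟨w2, h2, h4⟩⟩
  · rintro ⟨t, ⟨w1, h1, h3⟩, ⟨w2, h2, h4⟩⟩
    exact ⟨w1 ++ w2, Language.mem_mul.mpr ⟨w1, h1, w2, h2, rfl⟩,
      (semiPath_append w1 w2 u v).mpr ⟨t, h3, h4⟩⟩

end Joined

/-! ### The query -/

/-- the expression `a`, `b` or `c` -/
def ch (i : Fin 3) : RegularExpression (Fin 3 ⊕ Fin 3) := RegularExpression.char (Sum.inl i)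

/-- `Q(x, y, z) = (x, ε + a, y) ∧ (y, ε + b, z) ∧ (x, ab + c, z)` -/
def Q : C2RPQ (Fin 3) 3 where
  Var := Fin 3
  finite := inferInstance
  free := id
  atoms := [(0, 1 + ch 0, 1), (1, 1 + ch 1, 2), (0, ch 0 * ch 1 + ch 2, 2)]

theorem mem_Q (G : GraphDB (Fin 3)) (a : Fin 3 → G.V) : a ∈ Q.eval G ↔
    (a 0 = a 1 ∨ G.E (a 0) 0 (a 1)) ∧ (a 1 = a 2 ∨ G.E (a 1) 1 (a 2)) ∧
      ((∃ t, G.E (a 0) 0 t ∧ G.E t 1 (a 2)) ∨ G.E (a 0) 2 (a 2)) := by
  have key : ∀ h : Fin 3 → G.V, (∀ t ∈ Q.atoms, Joined t.2.1 G (h t.1) (h t.2.2)) ↔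
      ((h 0 = h 1 ∨ G.E (h 0) 0 (h 1)) ∧ (h 1 = h 2 ∨ G.E (h 1) 1 (h 2)) ∧
      ((∃ t, G.E (h 0) 0 t ∧ G.E t 1 (h 2)) ∨ G.E (h 0) 2 (h 2))) := by
    intro h
    show (∀ t ∈ [(0, 1 + ch 0, 1), (1, 1 + ch 1, 2), (0, ch 0 * ch 1 + ch 2, 2)],
      Joined t.2.1 G (h t.1) (h t.2.2)) ↔ _
    simp only [List.forall_mem_cons, List.not_mem_nil, false_implies, implies_true, and_true,
      joined_add, joined_one, joined_mul, ch, joined_char]
  constructor
  · rintro ⟨h, h1, h2⟩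
    have h3 : h = a := funext h1
    rw [← h3]
    exact (key h).mp h2
  · intro h
    exact ⟨a, fun _ => rfl, (key a).mpr h⟩

/-- the four acyclic queries -/
def T1 : C2RPQ (Fin 3) 3 := ⟨Fin 3, inferInstance, id,
  [(0, 1, 1), (1, 1, 2), (2, ch 0 * ch 1 + ch 2, 2)]⟩
def T2 : C2RPQ (Fin 3) 3 := ⟨Fin 3, inferInstance, id,
  [(0, 1, 1), (1, ch 1, 2), (1, ch 0 * ch 1 + ch 2, 2)]⟩
def T3 : C2RPQ (Fin 3) 3 := ⟨Fin 3, inferInstance, id,
  [(0, ch 0, 1), (1, 1, 2), (0, ch 0 * ch 1 + ch 2, 1)]⟩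
def T4 : C2RPQ (Fin 3) 3 := ⟨Fin 3, inferInstance, id, [(0, ch 0, 1), (1, ch 1, 2)]⟩

theorem mem_T1 (G : GraphDB (Fin 3)) (a : Fin 3 → G.V) : a ∈ T1.eval G ↔
    a 0 = a 1 ∧ a 1 = a 2 ∧ ((∃ t, G.E (a 2) 0 t ∧ G.E t 1 (a 2)) ∨ G.E (a 2) 2 (a 2)) := by
  have key : ∀ h : Fin 3 → G.V, (∀ t ∈ T1.atoms, Joined t.2.1 G (h t.1) (h t.2.2)) ↔
      (h 0 = h 1 ∧ h 1 = h 2 ∧ ((∃ t, G.E (h 2) 0 t ∧ G.E t 1 (h 2)) ∨ G.E (h 2) 2 (h 2))) := by
    intro h
    show (∀ t ∈ [(0, 1, 1), (1, 1, 2), (2, ch 0 * ch 1 + ch 2, 2)],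
      Joined t.2.1 G (h t.1) (h t.2.2)) ↔ _
    simp only [List.forall_mem_cons, List.not_mem_nil, false_implies, implies_true, and_true,
      joined_add, joined_one, joined_mul, ch, joined_char]
  constructor
  · rintro ⟨h, h1, h2⟩
    have h3 : h = a := funext h1
    rw [← h3]
    exact (key h).mp h2
  · intro h
    exact ⟨a, fun _ => rfl, (key a).mpr h⟩

theorem mem_T2 (G : GraphDB (Fin 3)) (a : Fin 3 → G.V) : a ∈ T2.eval G ↔
    a 0 = a 1 ∧ G.E (a 1) 1 (a 2) ∧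
      ((∃ t, G.E (a 1) 0 t ∧ G.E t 1 (a 2)) ∨ G.E (a 1) 2 (a 2)) := by
  have key : ∀ h : Fin 3 → G.V, (∀ t ∈ T2.atoms, Joined t.2.1 G (h t.1) (h t.2.2)) ↔
      (h 0 = h 1 ∧ G.E (h 1) 1 (h 2) ∧
        ((∃ t, G.E (h 1) 0 t ∧ G.E t 1 (h 2)) ∨ G.E (h 1) 2 (h 2))) := by
    intro h
    show (∀ t ∈ [(0, 1, 1), (1, ch 1, 2), (1, ch 0 * ch 1 + ch 2, 2)],
      Joined t.2.1 G (h t.1) (h t.2.2)) ↔ _
    simp only [List.forall_mem_cons, List.not_mem_nil, false_implies, implies_true, and_true,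
      joined_add, joined_one, joined_mul, ch, joined_char]
  constructor
  · rintro ⟨h, h1, h2⟩
    have h3 : h = a := funext h1
    rw [← h3]
    exact (key h).mp h2
  · intro h
    exact ⟨a, fun _ => rfl, (key a).mpr h⟩

theorem mem_T3 (G : GraphDB (Fin 3)) (a : Fin 3 → G.V) : a ∈ T3.eval G ↔
    G.E (a 0) 0 (a 1) ∧ a 1 = a 2 ∧
      ((∃ t, G.E (a 0) 0 t ∧ G.E t 1 (a 1)) ∨ G.E (a 0) 2 (a 1)) := by
  have key : ∀ h : Fin 3 → G.V, (∀ t ∈ T3.atoms, Joined t.2.1 G (h t.1) (h t.2.2)) ↔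
      (G.E (h 0) 0 (h 1) ∧ h 1 = h 2 ∧
        ((∃ t, G.E (h 0) 0 t ∧ G.E t 1 (h 1)) ∨ G.E (h 0) 2 (h 1))) := by
    intro h
    show (∀ t ∈ [(0, ch 0, 1), (1, 1, 2), (0, ch 0 * ch 1 + ch 2, 1)],
      Joined t.2.1 G (h t.1) (h t.2.2)) ↔ _
    simp only [List.forall_mem_cons, List.not_mem_nil, false_implies, implies_true, and_true,
      joined_add, joined_one, joined_mul, ch, joined_char]
  constructor
  · rintro ⟨h, h1, h2⟩
    have h3 : h = a := funext h1
    rw [← h3]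
    exact (key h).mp h2
  · intro h
    exact ⟨a, fun _ => rfl, (key a).mpr h⟩

theorem mem_T4 (G : GraphDB (Fin 3)) (a : Fin 3 → G.V) : a ∈ T4.eval G ↔
    G.E (a 0) 0 (a 1) ∧ G.E (a 1) 1 (a 2) := by
  have key : ∀ h : Fin 3 → G.V, (∀ t ∈ T4.atoms, Joined t.2.1 G (h t.1) (h t.2.2)) ↔
      (G.E (h 0) 0 (h 1) ∧ G.E (h 1) 1 (h 2)) := by
    intro h
    show (∀ t ∈ [(0, ch 0, 1), (1, ch 1, 2)], Joined t.2.1 G (h t.1) (h t.2.2)) ↔ _
    simp only [List.forall_mem_cons, List.not_mem_nil, false_implies, implies_true, and_true,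
      ch, joined_char]
  constructor
  · rintro ⟨h, h1, h2⟩
    have h3 : h = a := funext h1
    rw [← h3]
    exact (key h).mp h2
  · intro h
    exact ⟨a, fun _ => rfl, (key a).mpr h⟩

/-- a graph on `{0, 1, 2}` without the edge `{0, 2}` is acyclic -/
theorem acyclic_of_path (Γ : SimpleGraph (Fin 3)) (h : ¬ Γ.Adj 0 2) : Γ.IsAcyclic := by
  have h0 : ∀ v, v ≠ 0 → ∀ p : Γ.Walk 0 v, s(0, 1) ∈ p.edges := by
    intro v hv p
    cases p with
    | nil => exact absurd rfl hv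
    | @cons _ w _ hadj p =>
      have hw : w = 1 := by
        fin_cases w
        · exact absurd hadj (Γ.loopless.irrefl 0)
        · rfl
        · exact absurd hadj h
      subst hw
      simp
  have h2 : ∀ v, v ≠ 2 → ∀ p : Γ.Walk 2 v, s(2, 1) ∈ p.edges := by
    intro v hv p
    cases p with
    | nil => exact absurd rfl hv
    | @cons _ w _ hadj p =>
      have hw : w = 1 := by
        fin_cases w
        · exact absurd hadj.symm h
        · rfl
        · exact absurd hadj (Γ.loopless.irrefl 2)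
      subst hw
      simp
  rw [SimpleGraph.isAcyclic_iff_forall_adj_isBridge]
  intro v w hvw
  rw [SimpleGraph.isBridge_iff_forall_walk_mem_edges]
  intro p
  fin_cases v <;> fin_cases w
  · exact absurd hvw (Γ.loopless.irrefl 0)
  · exact h0 _ (by decide) p
  · exact absurd hvw h
  · have := h0 _ (by decide) p.reverse
    rw [SimpleGraph.Walk.edges_reverse, List.mem_reverse] at this
    exact Sym2.eq_swap (a := (0 : Fin 3)) (b := 1) ▸ this
  · exact absurd hvw (Γ.loopless.irrefl 1)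
  · have := h2 _ (by decide) p.reverse
    rw [SimpleGraph.Walk.edges_reverse, List.mem_reverse] at this
    exact Sym2.eq_swap (a := (2 : Fin 3)) (b := 1) ▸ this
  · exact absurd hvw.symm h
  · exact h2 _ (by decide) p
  · exact absurd hvw (Γ.loopless.irrefl 2)

theorem acyclic_atoms (l : List (Fin 3 × RegularExpression (Fin 3 ⊕ Fin 3) × Fin 3))
    (h : ∀ t ∈ l, ¬ (t.1 = 0 ∧ t.2.2 = 2) ∧ ¬ (t.1 = 2 ∧ t.2.2 = 0)) :
    (⟨Fin 3, inferInstance, id, l⟩ : C2RPQ (Fin 3) 3).IsAcyclic := by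
  refine acyclic_of_path _ ?_
  intro hadj
  unfold C2RPQ.graph at hadj
  rw [SimpleGraph.fromRel_adj] at hadj
  rcases hadj with ⟨_, ⟨R, hR⟩ | ⟨R, hR⟩⟩
  · exact (h _ hR).1 ⟨rfl, rfl⟩
  · exact (h _ hR).2 ⟨rfl, rfl⟩

theorem semAcyclic_Q : SemanticallyAcyclic Q := by
  refine ⟨[T1, T2, T3, T4], ?_, ?_⟩
  · intro T hT
    simp only [List.mem_cons, List.not_mem_nil, or_false] at hT
    rcases hT with rfl | rfl | rfl | rfl <;> refine acyclic_atoms _ ?_ <;>
      simp only [List.forall_mem_cons, List.not_mem_nil, false_implies, implies_true, and_true] <;>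
      decide
  · intro G
    ext a
    rw [mem_Q]
    simp only [Set.mem_ofPred_eq, List.mem_cons, List.not_mem_nil, or_false, exists_eq_or_imp,
      exists_eq_left, mem_T1, mem_T2, mem_T3, mem_T4]
    constructor
    · rintro ⟨h1 | h1, h2 | h2, h3⟩
      · left
        refine ⟨h1, h2, ?_⟩
        rwa [h1, h2] at h3
      · right; left
        refine ⟨h1, h2, ?_⟩
        rwa [h1] at h3
      · right; right; left
        refine ⟨h1, h2, ?_⟩
        rwa [← h2] at h3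
      · right; right; right
        exact ⟨h1, h2⟩
    · rintro (⟨h1, h2, h3⟩ | ⟨h1, h2, h3⟩ | ⟨h1, h2, h3⟩ | ⟨h1, h2⟩)
      · refine ⟨Or.inl h1, Or.inl h2, ?_⟩
        rwa [h1, h2]
      · refine ⟨Or.inl h1, Or.inr h2, ?_⟩
        rwa [h1]
      · refine ⟨Or.inr h1, Or.inl h2, ?_⟩
        rwa [← h2]
      · exact ⟨Or.inr h1, Or.inr h2, Or.inl ⟨_, h1, h2⟩⟩

/-! ### Gluing -/

/-- decompose a walk at a change of a property -/
theorem exists_change {V : Type} {Γ : SimpleGraph V} (f : V → Prop) : ∀ {x y : V}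
    (p : Γ.Walk x y), ¬ f x → f y → ∃ (w w' : V) (h : Γ.Adj w w') (p1 : Γ.Walk x w)
      (p2 : Γ.Walk w' y), p = p1.append (SimpleGraph.Walk.cons h p2) ∧ ¬ f w ∧ f w'
  | x, _, SimpleGraph.Walk.nil => fun h1 h2 => absurd h2 h1
  | x, y, @SimpleGraph.Walk.cons _ _ _ v _ h p => fun h1 h2 => by
    by_cases h3 : f v
    · exact ⟨x, v, h, SimpleGraph.Walk.nil, p, by simp, h1, h3⟩
    · obtain ⟨w, w', h', p1, p2, h4, h5, h6⟩ := exists_change f p h3 h2
      exact ⟨w, w', h', SimpleGraph.Walk.cons h p1, p2, by rw [h4]; rfl, h5, h6⟩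

/-- the separation of a forest at an edge of the path between `x` and `y` -/
theorem exists_cut {V : Type} {Γ : SimpleGraph V} (hΓ : Γ.IsAcyclic) (f : V → Prop) (x y : V)
    (hx : ¬ f x) (hy : f y) :
    (∃ S : Set V, x ∉ S ∧ y ∈ S ∧ ∀ u ∈ S, ∀ v, Γ.Adj u v → v ∈ S) ∨
    ∃ (S : Set V) (w w' : V), x ∉ S ∧ y ∈ S ∧ w ∉ S ∧ w' ∈ S ∧ ¬ f w ∧ f w' ∧
      ∀ u ∈ S, ∀ v ∉ S, Γ.Adj u v → u = w' ∧ v = w := by
  classical
  by_cases hr : Γ.Reachable x y
  · right
    obtain ⟨p, hp⟩ := hr.exists_isPath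
    obtain ⟨w, w', h, p1, p2, hpe, h1, h2⟩ := exists_change f p hx hy
    have hnd := hp.isTrail.edges_nodup
    rw [hpe, SimpleGraph.Walk.edges_append, SimpleGraph.Walk.edges_cons] at hnd
    have hnd' := List.nodup_append'.mp hnd
    have he1 : s(w, w') ∉ p1.edges := fun hmem => hnd'.2.2 hmem List.mem_cons_self
    have he2 : s(w, w') ∉ p2.edges := (List.nodup_cons.mp hnd'.2.1).1
    have hbr : ∀ q : Γ.Walk w w', s(w, w') ∈ q.edges :=
      SimpleGraph.isBridge_iff_forall_walk_mem_edges.mp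
        (SimpleGraph.isAcyclic_iff_forall_adj_isBridge.mp hΓ h)
    refine ⟨{v | ∃ q : Γ.Walk v w', s(w, w') ∉ q.edges}, w, w', ?_, ?_, ?_, ?_, h1, h2, ?_⟩
    · rintro ⟨q, hq⟩
      have := hbr (p1.reverse.append q)
      rw [SimpleGraph.Walk.edges_append, List.mem_append, SimpleGraph.Walk.edges_reverse,
        List.mem_reverse] at this
      rcases this with h3 | h3
      · exact he1 h3
      · exact hq h3
    · refine ⟨p2.reverse, ?_⟩
      rw [SimpleGraph.Walk.edges_reverse, List.mem_reverse]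
      exact he2
    · rintro ⟨q, hq⟩
      exact hq (hbr q)
    · exact ⟨SimpleGraph.Walk.nil, by simp⟩
    · rintro u ⟨q, hq⟩ v hv huv
      have h3 : s(v, u) = s(w, w') := by
        by_contra hne
        apply hv
        refine ⟨SimpleGraph.Walk.cons huv.symm q, ?_⟩
        rw [SimpleGraph.Walk.edges_cons, List.mem_cons, not_or]
        exact ⟨fun h => hne h.symm, hq⟩
      rcases Sym2.eq_iff.mp h3 with ⟨h4, h5⟩ | ⟨h4, h5⟩
      · exact ⟨h5, h4⟩
      · exfalso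
        apply hv
        rw [h4]
        exact ⟨SimpleGraph.Walk.nil, by simp⟩
  · left
    refine ⟨{v | Γ.Reachable v y}, hr, SimpleGraph.Reachable.refl _, ?_⟩
    intro u hu v huv
    exact huv.symm.reachable.trans hu

/-- the database with the edges `0 -b→ 1`, `0 -c→ 1` -/
def DB2 : GraphDB (Fin 3) := ⟨Fin 2, inferInstance, fun u l v => u = 0 ∧ v = 1 ∧ (l = 1 ∨ l = 2)⟩

/-- the database with the edges `0 -a→ 1`, `0 -c→ 1` -/
def DB3 : GraphDB (Fin 3) := ⟨Fin 2, inferInstance, fun u l v => u = 0 ∧ v = 1 ∧ (l = 0 ∨ l = 2)⟩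

/-- the union of the images of the databases `DB2` and `DB3` in a set with three elements -/
def Glue (φ ψ : Fin 2 → Fin 3) : GraphDB (Fin 3) :=
  ⟨Fin 3, inferInstance, fun u l v => (u = φ 0 ∧ v = φ 1 ∧ (l = 1 ∨ l = 2)) ∨
    (u = ψ 0 ∧ v = ψ 1 ∧ (l = 0 ∨ l = 2))⟩

theorem glue {T : C2RPQ (Fin 3) 3} (φ ψ : Fin 2 → Fin 3) {h2 h3 : T.Var → Fin 2}
    (e2 : ∀ t ∈ T.atoms, Joined t.2.1 DB2 (h2 t.1) (h2 t.2.2))
    (e3 : ∀ t ∈ T.atoms, Joined t.2.1 DB3 (h3 t.1) (h3 t.2.2)) (S : Set T.Var)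
    (hS : ∀ u ∈ S, ∀ v ∉ S, T.graph.Adj u v → φ (h2 u) = ψ (h3 u) ∨ φ (h2 v) = ψ (h3 v)) :
    ∃ h : T.Var → Fin 3, (∀ u ∈ S, h u = ψ (h3 u)) ∧ (∀ u ∉ S, h u = φ (h2 u)) ∧
      (fun i => h (T.free i)) ∈ T.eval (Glue φ ψ) := by
  classical
  let h : T.Var → Fin 3 := fun u => if u ∈ S then ψ (h3 u) else φ (h2 u)
  have hin : ∀ u ∈ S, h u = ψ (h3 u) := fun u hu => by simp only [h, if_pos hu]
  have hout : ∀ u ∉ S, h u = φ (h2 u) := fun u hu => by simp only [h, if_neg hu]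
  refine ⟨h, hin, hout, h, fun _ => rfl, ?_⟩
  rintro ⟨u, R, v⟩ ht
  have j2 : Joined R (Glue φ ψ) (φ (h2 u)) (φ (h2 v)) := (e2 _ ht).map (G' := Glue φ ψ) φ (by
    rintro a l b ⟨rfl, rfl, hl⟩
    exact Or.inl ⟨rfl, rfl, hl⟩)
  have j3 : Joined R (Glue φ ψ) (ψ (h3 u)) (ψ (h3 v)) := (e3 _ ht).map (G' := Glue φ ψ) ψ (by
    rintro a l b ⟨rfl, rfl, hl⟩
    exact Or.inr ⟨rfl, rfl, hl⟩)
  show Joined R (Glue φ ψ) (h u) (h v)
  by_cases hu : u ∈ S
  · by_cases hv : v ∈ S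
    · rw [hin u hu, hin v hv]; exact j3
    · have hne : u ≠ v := by rintro rfl; exact hv hu
      have hadj : T.graph.Adj u v := by
        unfold C2RPQ.graph
        rw [SimpleGraph.fromRel_adj]
        exact ⟨hne, Or.inl ⟨R, ht⟩⟩
      rw [hin u hu, hout v hv]
      rcases hS u hu v hv hadj with h4 | h4
      · rw [← h4]; exact j2
      · rw [h4]; exact j3
  · by_cases hv : v ∈ S
    · have hne : v ≠ u := by rintro rfl; exact hu hv
      have hadj : T.graph.Adj v u := by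
        unfold C2RPQ.graph
        rw [SimpleGraph.fromRel_adj]
        exact ⟨hne, Or.inr ⟨R, ht⟩⟩
      rw [hout u hu, hin v hv]
      rcases hS v hv u hu hadj with h4 | h4
      · rw [← h4]; exact j2
      · rw [h4]; exact j3
    · rw [hout u hu, hout v hv]; exact j2

theorem no_acyclic (T : C2RPQ (Fin 3) 3) (hT : T.IsAcyclic) : ¬ Equivalent T Q := by
  intro heq
  have q2 := (mem_Q DB2 (![0, 0, 1] : Fin 3 → Fin 2)).mpr
    ⟨Or.inl rfl, Or.inr ⟨rfl, rfl, Or.inl rfl⟩, Or.inr ⟨rfl, rfl, Or.inr rfl⟩⟩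
  have q3 := (mem_Q DB3 (![0, 1, 1] : Fin 3 → Fin 2)).mpr
    ⟨Or.inr ⟨rfl, rfl, Or.inl rfl⟩, Or.inl rfl, Or.inr ⟨rfl, rfl, Or.inr rfl⟩⟩
  rw [← heq] at q2 q3
  obtain ⟨h2, f2, e2⟩ : ∃ h : T.Var → Fin 2,
    (∀ i, h (T.free i) = (![0, 0, 1] : Fin 3 → Fin 2) i) ∧
      ∀ t ∈ T.atoms, Joined t.2.1 DB2 (h t.1) (h t.2.2) := q2
  obtain ⟨h3, f3, e3⟩ : ∃ h : T.Var → Fin 2,
    (∀ i, h (T.free i) = (![0, 1, 1] : Fin 3 → Fin 2) i) ∧
      ∀ t ∈ T.atoms, Joined t.2.1 DB3 (h t.1) (h t.2.2) := q3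
  have x2 : h2 (T.free 0) = (0 : Fin 2) := f2 0
  have y2 : h2 (T.free 1) = (0 : Fin 2) := f2 1
  have z2 : h2 (T.free 2) = (1 : Fin 2) := f2 2
  have x3 : h3 (T.free 0) = (0 : Fin 2) := f3 0
  have y3 : h3 (T.free 1) = (1 : Fin 2) := f3 1
  have z3 : h3 (T.free 2) = (1 : Fin 2) := f3 2
  -- a glued answer gives an answer of `Q`
  have key : ∀ (φ ψ : Fin 2 → Fin 3) (S : Set T.Var),
      (∀ u ∈ S, ∀ v ∉ S, T.graph.Adj u v → φ (h2 u) = ψ (h3 u) ∨ φ (h2 v) = ψ (h3 v)) →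
      ∃ a : Fin 3 → Fin 3, a ∈ Q.eval (Glue φ ψ) ∧
        ∀ i, (T.free i ∈ S → a i = ψ (h3 (T.free i))) ∧
          (T.free i ∉ S → a i = φ (h2 (T.free i))) := by
    intro φ ψ S hS
    obtain ⟨h, h4, h5, h6⟩ := glue φ ψ e2 e3 S hS
    refine ⟨fun i => h (T.free i), ?_, fun i => ⟨h4 _, h5 _⟩⟩
    rw [← heq]
    exact h6
  -- the database with `1 = 0'`
  have caseA : ∀ S : Set T.Var, T.free 0 ∉ S → T.free 1 ∈ S →
      (∀ u ∈ S, ∀ v ∉ S, T.graph.Adj u v →
        (![0, 1] : Fin 2 → Fin 3) (h2 u) = (![1, 2] : Fin 2 → Fin 3) (h3 u) ∨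
          (![0, 1] : Fin 2 → Fin 3) (h2 v) = (![1, 2] : Fin 2 → Fin 3) (h3 v)) → False := by
    intro S hx hy hS
    obtain ⟨a, ha, hf⟩ := key _ _ S hS
    have a0 := (hf 0).2 hx
    have a1 := (hf 1).1 hy
    rw [x2] at a0
    rw [y3] at a1
    have h4 := ((mem_Q (Glue ![0, 1] ![1, 2]) a).mp ha).1
    rw [a0, a1] at h4
    simp [Glue] at h4
  have caseB : ∀ S : Set T.Var, T.free 0 ∉ S → T.free 1 ∈ S →
      (∀ u ∈ S, ∀ v ∉ S, T.graph.Adj u v →
        (![0, 1] : Fin 2 → Fin 3) (h2 u) = (![2, 1] : Fin 2 → Fin 3) (h3 u) ∨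
          (![0, 1] : Fin 2 → Fin 3) (h2 v) = (![2, 1] : Fin 2 → Fin 3) (h3 v)) → False := by
    intro S hx hy hS
    obtain ⟨a, ha, hf⟩ := key _ _ S hS
    have a0 := (hf 0).2 hx
    have a1 := (hf 1).1 hy
    rw [x2] at a0
    rw [y3] at a1
    have h4 := ((mem_Q (Glue ![0, 1] ![2, 1]) a).mp ha).1
    rw [a0, a1] at h4
    simp [Glue] at h4
  rcases exists_cut hT (fun u => h3 u = (1 : Fin 2)) (T.free 0) (T.free 1)
    (by rw [x3]; decide) y3 with ⟨S, hx, hy, hS⟩ | ⟨S, w, w', hx, hy, hw, hw', fw, fw', hS⟩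
  · exact caseA S hx hy fun u hu v hv huv => absurd (hS u hu v huv) hv
  · have fw0 : h3 w = (0 : Fin 2) := by
      have : ∀ t : Fin 2, ¬ t = 1 → t = 0 := by decide
      exact this _ fw
    have hcase : ∀ t : Fin 2, t = 0 ∨ t = 1 := by decide
    rcases hcase (h2 w) with hw2 | hw2
    · rcases hcase (h2 w') with hw2' | hw2'
      · by_cases hz : T.free 2 ∈ S
        · -- glue at `w'` with types `(0, 1)`: `0 = 1'`
          obtain ⟨a, ha, hf⟩ := key ![0, 1] ![2, 0] S (by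
            intro u hu v hv huv
            obtain ⟨rfl, rfl⟩ := hS u hu v hv huv
            left
            rw [hw2', fw']
            rfl)
          have a0 := (hf 0).2 hx
          have a2 := (hf 2).1 hz
          rw [x2] at a0
          rw [z3] at a2
          have h4 := ((mem_Q (Glue ![0, 1] ![2, 0]) a).mp ha).2.2
          rw [a0, a2] at h4
          rcases h4 with ⟨t, h4, h5⟩ | h4
          · revert h4 h5
            revert t
            simp [Glue]
          · simp [Glue] at h4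
        · -- glue at `w` with types `(0, 0)`: `0 = 0'`
          obtain ⟨a, ha, hf⟩ := key ![0, 1] ![0, 2] S (by
            intro u hu v hv huv
            obtain ⟨rfl, rfl⟩ := hS u hu v hv huv
            right
            rw [hw2, fw0]
            rfl)
          have a1 := (hf 1).1 hy
          have a2 := (hf 2).2 hz
          rw [y3] at a1
          rw [z2] at a2
          have h4 := ((mem_Q (Glue ![0, 1] ![0, 2]) a).mp ha).2.1
          rw [a1, a2] at h4
          simp [Glue] at h4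
      · -- types `(1, 1)` at `w'`
        refine caseB S hx hy ?_
        intro u hu v hv huv
        obtain ⟨rfl, rfl⟩ := hS u hu v hv huv
        left
        rw [hw2', fw']
        rfl
    · -- types `(1, 0)` at `w`
      refine caseA S hx hy ?_
      intro u hu v hv huv
      obtain ⟨rfl, rfl⟩ := hS u hu v hv huv
      right
      rw [hw2, fw0]
      rfl

/-- There is a C2RPQ that is semantically acyclic, that is, equivalent to a finite disjunction of
acyclic C2RPQs, but not equivalent to any single acyclic C2RPQ. -/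
theorem result : ∃ (A : Type) (_ : Finite A) (k : ℕ) (Q : C2RPQ A k),
    SemanticallyAcyclic Q ∧ ¬ ∃ T : C2RPQ A k, T.IsAcyclic ∧ Equivalent T Q :=
  ⟨Fin 3, inferInstance, 3, Q, semAcyclic_Q, fun ⟨T, hT, h⟩ => no_acyclic T hT h⟩

end Pool.Agent.Results.MP_968ae6_lc.NoSingleAcyclic
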